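import Pool.Agent.Helper76.CL.Short

/-!
# Embeddings into groups invariably generated by a `p`-element and a `q`-element:
# reduction to simple groups that are neither alternating nor classical
-/

set_option autoImplicit false

namespace Pool.Agent.Results.MP_c6fb0d_al.ClassicalReduction

open Helper76.IG Helper76.CL

/-- every finite group embeds in a finite group invariably generated by an element of order `p`
and an element of order `q` -/
def AllEmbed (p q : ℕ) : Prop :=
  ∀ (H : Type) [Group H] [Finite H], ∃ (G : Type) (_ : Group G) (_ : Finite G),
    IsIG p q G ∧ Embeds H G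

/-- `S` is not isomorphic to an alternating group, to `PSL`, `PSp`, `PSU` or `PΩ` of any dimension
over any finite field, and does not embed in `PGL(n, F)` for any `n ≤ m` and any field `F` -/
def Unlisted (m : ℕ) (S : Type) [Group S] : Prop :=
  (∀ n : ℕ, IsEmpty (S ≃* alternatingGroup (Fin n))) ∧
    ¬ IsPSL S ∧ ¬ PSpType S ∧ ¬ PSUType S ∧ ¬ POmType S ∧
    ∀ (F : Type) [Field F] (n : ℕ), n ≤ m →
      ¬ Embeds S (GL (Fin n) F ⧸ Subgroup.center (GL (Fin n) F))

/-- For primes `p ≠ q`, every finite group embeds in a finite group invariably generated by an
element of order `p` and an element of order `q` if and only if for every `m` there is a finite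
almost simple group `G` invariably generated in this way whose socle `S` contains a copy of
`Alt(m)`, has order divisible by `p` and `q`, is not isomorphic to an alternating group, to
`PSL`, `PSp`, `PSU` or `PΩ` of any dimension over any finite field, and does not embed in
`PGL(n, F)` for any `n ≤ m` and any field `F`. -/
theorem result (p q : ℕ) (hp : p.Prime) (hq : q.Prime) (hpq : p ≠ q) :
    AllEmbed p q ↔
    ∀ m : ℕ, ∃ (G : Type) (_ : Group G) (_ : Finite G) (S : Subgroup G), S.Normal ∧
      IsSimpleGroup S ∧ Subgroup.centralizer (S : Set G) = ⊥ ∧ IsIG p q G ∧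
      p ∣ Nat.card S ∧ q ∣ Nat.card S ∧
      Embeds (alternatingGroup (Fin m)) S ∧ Unlisted m S := by
  unfold Unlisted
  simp only [isPSp_iff, isPSU_iff, isPOm_iff]
  exact reduction_cl hp hq hpq

end Pool.Agent.Results.MP_c6fb0d_al.ClassicalReduction
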