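import Pool.Agent.NBA.Main

/-!
# Groups with nilpotent derived subgroup embed in groups invariably generated by a `p`-element and
# a `q`-element
-/

set_option autoImplicit false

open Helper76.IG

/-- For primes `p ≠ q` with `1 / p + 1 / q < 1 / 2`, every finite group with nilpotent derived
subgroup embeds in a finite group that is invariably generated by an element of order `p` and an
element of order `q`. -/
theorem Pool.Agent.Results.MP_c6fb0d_al.NilpotentByAbelian.result
    (p q : ℕ) (hp : p.Prime) (hq : q.Prime) (hne : p ≠ q) (hpq : 2 * (p + q) < p * q)
    (H : Type) [Group H] [Finite H] (hH : Group.IsNilpotent (commutator H)) :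
    ∃ (G : Type) (_ : Group G) (_ : Finite G), IsIG p q G ∧ Embeds H G :=
  Pool.Agent.NBA.main hp hq hne hpq H hH
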