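import Pool.Agent.NBA.Rad

/-!
# Soluble radicals of groups invariably generated by a `p`-element and a `q`-element
-/

set_option autoImplicit false

open Helper76.IG

/-- For primes `p ≠ q` with `1 / p + 1 / q < 1 / 2`, a finite group `H` of order prime to `p q`
embeds in a soluble normal subgroup of a finite group that is invariably generated by an element of
order `p` and an element of order `q` if and only if `H` is nilpotent. -/
theorem Pool.Agent.Results.MP_c6fb0d_al.RadicalNilpotent.result
    (p q : ℕ) (hp : p.Prime) (hq : q.Prime) (hne : p ≠ q) (hpq : 2 * (p + q) < p * q)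
    (H : Type) [Group H] [Finite H] (hH : (Nat.card H).Coprime (p * q)) :
    (∃ (G : Type) (_ : Group G) (_ : Finite G) (N : Subgroup G), IsIG p q G ∧ N.Normal ∧
      Group.IsSolvable N ∧ Embeds H N) ↔ Group.IsNilpotent H :=
  Pool.Agent.NBA.rad hp hq hne hpq H hH
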