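import Pool.Agent.Helper76.PQ.Main

/-!
# The soluble case: groups invariably generated by elements of orders `p` and `q`
-/

set_option autoImplicit false

open Helper76.IG

/-- For primes `p ≠ q`, a finite group `H` embeds in a finite soluble group that is invariably
generated by an element of order `p` and an element of order `q` if and only if `H` is a soluble
`{p, q}`-group. -/
theorem Pool.Agent.Results.MP_c6fb0d_al.SolubleCase.result
    (p q : ℕ) (hp : p.Prime) (hq : q.Prime) (hpq : p ≠ q) (H : Type) [Group H] [Finite H] :
    (∃ (G : Type) (_ : Group G) (_ : Finite G), Group.IsSolvable G ∧ IsIG p q G ∧ Embeds H G) ↔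
      Group.IsSolvable H ∧ ∀ r : ℕ, r.Prime → r ∣ Nat.card H → r = p ∨ r = q :=
  Helper76.PQ.main hp hq hpq H
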